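import Mathlib
import Pool.Agent.Helper59.HardyDefs
import Pool.Agent.Helper59.HMain

namespace Pool.Agent.Results.MP_246dfd_an.EssentialDisc

open Pool.Agent.Helper59.Hardy Set

/-- For every non-automorphic analytic self-map `φ` of the disc with a fixed point `w` in the disc,
the composition operator `C` of `φ` on `H²` (which exists and is unique) has as essential spectrum
a closed disc centred at `0`, and its spectrum is that disc together with the powers of `φ'(w)`
and `1`. Consequently, whenever the spectrum is a disc of radius `r` together with the powers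
of `φ'(w)` and `1`, the essential spectrum is that disc of radius `r`. -/
theorem result (φ : ℂ → ℂ) (hφ : NonAutSelfMap φ) (w : ℂ) (hw : w ∈ disc) (hfix : φ w = w) :
    ∃ C : Op, (∀ C' : Op, IsComp φ C' ↔ C' = C) ∧
      (∃ ρ : ℝ, 0 ≤ ρ ∧ essSpec C = closedDisc ρ ∧
        spec C = closedDisc ρ ∪ schroder (deriv φ w)) ∧
      ∀ r : ℝ, 0 ≤ r → spec C = closedDisc r ∪ schroder (deriv φ w) →
        essSpec C = closedDisc r := by
  obtain ⟨C, h1, h2, ⟨ρ, h3, h4, h5⟩, h6⟩ := main_theorem hφ.1 hφ.2.1 hφ.2.2 hw hfix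
  rw [← essSpec_eq] at h4
  rw [← spec_eq] at h5
  simp only [← essSpec_eq, ← spec_eq] at h6
  refine ⟨C, fun C' => ⟨h2 C', fun h => h ▸ h1⟩, ⟨ρ, h3, h4, ?_⟩, fun r hr h => h6 r hr ?_⟩
  · rw [h5, union_assoc]; rfl
  · rw [h, union_assoc]; rfl

end Pool.Agent.Results.MP_246dfd_an.EssentialDisc
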